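import Pool.Agent.N124.CU.Stm2

set_option autoImplicit false

/-!
# Project CU (helper124), task CSR (helper488): the positions of `c` near a point `w ≠ 0`
-/

namespace Pool.Agent.N488.CU

open Filter Topology
open Pool.Agent.N124.CU

/-- the two positions of `c`, as continuous functions -/
theorem two (P : Par) (z : ℂ) (hz : z ≠ 0) (he : P.eta z ≠ 0) : ∃ p q : ℂ → ℂ,
    CRep P z p q ∧ ContinuousAt p 0 ∧ ContinuousAt q 0 ∧
    ∀ᶠ s in 𝓝 (0 : ℂ), P.qb (z + s) = -(P.eta (z + s) * (p s + q s)) ∧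
      P.qc (z + s) = P.eta (z + s) * p s * q s := by
  have hzs : ContinuousAt (fun s : ℂ => z + s) 0 := by fun_prop
  have h0 : z + 0 ≠ 0 := by rwa [add_zero]
  have he0 : P.eta (z + 0) ≠ 0 := by rwa [add_zero]
  have h1 : ContinuousAt (fun s : ℂ => P.eta (z + s)) 0 := by
    unfold Par.eta
    exact continuousAt_const.add (ContinuousAt.div₀ continuousAt_const hzs h0)
  have h2 : ContinuousAt (fun s : ℂ => P.qb (z + s)) 0 := by
    unfold Par.qb
    fun_prop
  have h3 : ContinuousAt (fun s : ℂ => P.qc (z + s)) 0 := by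
    unfold Par.qc
    fun_prop
  obtain ⟨σ, hσ, hσ2⟩ := exists_sqrt (D := fun s : ℂ => P.qb (z + s) ^ 2 -
    4 * P.eta (z + s) * P.qc (z + s)) (x₀ := 0) (by fun_prop)
  refine ⟨fun s => (-P.qb (z + s) + σ s) / (2 * P.eta (z + s)),
    fun s => (-P.qb (z + s) - σ s) / (2 * P.eta (z + s)), ?_, ?_, ?_, ?_⟩
  · exact Eventually.of_forall fun s g => QP_eq (hσ2 s) g
  · exact ContinuousAt.div₀ (by fun_prop) (by fun_prop) (mul_ne_zero two_ne_zero he0)
  · exact ContinuousAt.div₀ (by fun_prop) (by fun_prop) (mul_ne_zero two_ne_zero he0)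
  · filter_upwards [h1.eventually_ne he0] with s hs
    have h4 := hσ2 s
    constructor
    · field_simp
      ring
    · field_simp
      linear_combination h4

theorem cs_aux (P : Par) (w : ℂ) (h1 : P.de ≠ P.ga) (hw : w = (P.bp - P.a1) / (P.de - P.ga))
    (h2 : P.a1 ≠ P.bp) (he : P.eta w ≠ 0) (h3 : P.bp ≠ P.ga * w ^ 2) (p q : ℂ → ℂ)
    (hp : ContinuousAt p 0) (hq : ContinuousAt q 0) (hp0 : p 0 = 1)
    (hev : ∀ᶠ s in 𝓝 (0 : ℂ), P.qb (w + s) = -(P.eta (w + s) * (p s + q s)) ∧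
      P.qc (w + s) = P.eta (w + s) * p s * q s) :
    Tendsto (fun s => (p s - 1) / s) (𝓝[≠] 0) (𝓝 ((P.bp - P.a1) / (P.bp - P.ga * w ^ 2))) ∧
    Tendsto q (𝓝[≠] 0) (𝓝 ((1 + w) * P.ga / P.eta w)) := by
  have hdg : P.de - P.ga ≠ 0 := sub_ne_zero.2 h1
  have hba : P.bp - P.a1 ≠ 0 := sub_ne_zero.2 h2.symm
  have hw0 : w ≠ 0 := by rw [hw]; exact div_ne_zero hba hdg
  have hwm : (P.de - P.ga) * w = P.bp - P.a1 := by rw [hw]; field_simp
  constructor
  · let G : ℂ → ℂ := fun s => P.de * (w + s) ^ 2 - (P.de * p s - P.ga) * (w + s) +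
      (P.a1 - P.bp) * (w + s) - P.a1 * p s
    have hG : ContinuousAt G 0 := by
      show ContinuousAt (fun s => P.de * (w + s) ^ 2 - (P.de * p s - P.ga) * (w + s) +
        (P.a1 - P.bp) * (w + s) - P.a1 * p s) 0
      fun_prop
    have hG0 : G 0 = P.ga * w ^ 2 - P.bp := by
      show P.de * (w + 0) ^ 2 - (P.de * p 0 - P.ga) * (w + 0) +
        (P.a1 - P.bp) * (w + 0) - P.a1 * p 0 = _
      rw [hp0]
      linear_combination (w - 1) * hwm
    have hGne : G 0 ≠ 0 := by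
      rw [hG0]
      exact sub_ne_zero.2 h3.symm
    have hlim : Tendsto (fun s => -(w + s) * (P.de - P.ga) / G s) (𝓝[≠] 0)
        (𝓝 ((P.bp - P.a1) / (P.bp - P.ga * w ^ 2))) := by
      have h4 : ContinuousAt (fun s => -(w + s) * (P.de - P.ga) / G s) 0 :=
        ContinuousAt.div₀ (by fun_prop) hG hGne
      have h5 : -(w + 0) * (P.de - P.ga) / G 0 = (P.bp - P.a1) / (P.bp - P.ga * w ^ 2) := by
        rw [hG0, add_zero, div_eq_div_iff (sub_ne_zero.2 h3.symm) (sub_ne_zero.2 h3)]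
        linear_combination (P.ga * w ^ 2 - P.bp) * hwm
      rw [← h5]
      exact h4.tendsto.mono_left nhdsWithin_le_nhds
    refine hlim.congr' ?_
    have e1 : ∀ᶠ s in 𝓝[≠] (0 : ℂ), G s ≠ 0 :=
      (hG.eventually_ne hGne).filter_mono nhdsWithin_le_nhds
    have e2 : ∀ᶠ s in 𝓝[≠] (0 : ℂ), w + s ≠ 0 :=
      ((by fun_prop : ContinuousAt (fun s : ℂ => w + s) 0).eventually_ne
        (by rwa [add_zero])).filter_mono nhdsWithin_le_nhds
    filter_upwards [e1, e2, hev.filter_mono nhdsWithin_le_nhds, self_mem_nhdsWithin]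
      with s s1 s2 s3 s4
    have hs : s ≠ 0 := s4
    have hRQ : P.RQ (w + s) (p s) := root_left s3.1 s3.2
    have h6 := P.RQ_w s2 hRQ
    have h7 : (w + s) * (P.de - P.ga) * s + (p s - 1) * G s = 0 := by
      show (w + s) * (P.de - P.ga) * s + (p s - 1) * (P.de * (w + s) ^ 2 -
        (P.de * p s - P.ga) * (w + s) + (P.a1 - P.bp) * (w + s) - P.a1 * p s) = 0
      linear_combination h6 - (w + s) * hwm
    rw [div_eq_div_iff s1 hs]
    linear_combination (-1) * h7
  · have h4 := hev.self_of_nhds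
    rw [add_zero, hp0] at h4
    have h5 : q 0 = (1 + w) * P.ga / P.eta w := by
      rw [eq_div_iff he]
      have h6 := h4.2
      unfold Par.qc at h6
      linear_combination (-1) * h6
    rw [← h5]
    exact hq.tendsto.mono_left nhdsWithin_le_nhds

theorem t_cs : Pool.Agent.N124.CU.S_cs := by
  intro P w h1 hw h2 he h3
  have hdg : P.de - P.ga ≠ 0 := sub_ne_zero.2 h1
  have hba : P.bp - P.a1 ≠ 0 := sub_ne_zero.2 h2.symm
  have hw0 : w ≠ 0 := by rw [hw]; exact div_ne_zero hba hdg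
  have hwm : (P.de - P.ga) * w = P.bp - P.a1 := by rw [hw]; field_simp
  obtain ⟨p, q, hrep, hp, hq, hev⟩ := two P w hw0 he
  have h4 := hev.self_of_nhds
  rw [add_zero] at h4
  have h5 : P.eta w * 1 ^ 2 + P.qb w * 1 + P.qc w = 0 := by
    have h6 : w * P.eta w = P.de * w + P.a1 := by
      unfold Par.eta
      field_simp
    unfold Par.qb Par.qc
    linear_combination (-1) * h6 - hwm
  rcases root_cases he h4.1 h4.2 h5 with h | h
  · obtain ⟨a1, a2⟩ := cs_aux P w h1 hw h2 he h3 p q hp hq h.symm hev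
    exact ⟨p, q, hrep, a1, a2⟩
  · obtain ⟨a1, a2⟩ := cs_aux P w h1 hw h2 he h3 q p hq hp h.symm
      (hev.mono fun s hs => ⟨by rw [hs.1]; ring, by rw [hs.2]; ring⟩)
    exact ⟨q, p, hrep.mono fun s hs g => by rw [hs g, mul_comm], a1, a2⟩

theorem t_cr : Pool.Agent.N124.CU.S_cr := by
  intro P z hz
  obtain ⟨p, q, hrep, hp, hq, hev⟩ := two P z hz.w0 hz.eta0
  have h4 := hev.self_of_nhds
  rw [add_zero] at h4
  exact ⟨p, q, p 0, q 0, hrep, root_left h4.1 h4.2, root_right h4.1 h4.2,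
    hp.tendsto.mono_left nhdsWithin_le_nhds, hq.tendsto.mono_left nhdsWithin_le_nhds⟩

end Pool.Agent.N488.CU
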